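import Mathlib

/-! Satake parameters of cusp forms on `GL(4)` over a number field: definitions. -/

set_option autoImplicit false

namespace Pool.Agent.N859.G4

open NumberField IsDedekindDomain Filter Topology

variable {K : Type*} [Field K] [NumberField K]

/-- the finite places of `K` outside `S` -/
abbrev PL (S : Finset (HeightOneSpectrum (𝓞 K))) := {v : HeightOneSpectrum (𝓞 K) // v ∉ S}

/-- the norm of a finite place -/
noncomputable def Nm (v : HeightOneSpectrum (𝓞 K)) : ℕ := Ideal.absNorm v.asIdeal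

/-- the trace of the `k`-th power of `diag(a_0, a_1, a_2, a_3)` -/
noncomputable def tr (a : Fin 4 → ℂ) (k : ℕ) : ℂ := ∑ i, a i ^ k

/-- the trace of the `k`-th power of the exterior square of `diag(a_0, a_1, a_2, a_3)` -/
noncomputable def ext (a : Fin 4 → ℂ) (k : ℕ) : ℂ := ∑ i, ∑ j ∈ Finset.Ioi i, (a i * a j) ^ k

/-- For an isobaric automorphic representation `Π` of `GL_n` over `K`, unramified outside `S`, with
`t v k` the trace of the `k`-th power of its Satake parameter at `v`, this is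
`log L^S(s, Π × Π~) = ∑_{v ∉ S} ∑_{k ≥ 1} |t v k|² / k · (N v)^{-ks}`. -/
noncomputable def logRS {S : Finset (HeightOneSpectrum (𝓞 K))} (t : PL S → ℕ → ℂ) (s : ℂ) : ℂ :=
  ∑' x : PL S × ℕ, ((‖t x.1 (x.2 + 1)‖ ^ 2 / ((x.2 : ℝ) + 1) : ℝ) : ℂ) *
    (((Nm x.1.1 : ℕ) : ℂ) ^ (-s)) ^ (x.2 + 1)

/-- The Rankin-Selberg `L`-function `L^S(s, Π × Π~)` converges absolutely for `Re s > 1` and has at `s = 1` a
pole of order at most `m`. -/
structure RankinSelberg {S : Finset (HeightOneSpectrum (𝓞 K))} (t : PL S → ℕ → ℂ) (m : ℕ) : Prop where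
  /-- absolute convergence for `Re s > 1` -/
  summable : ∀ σ : ℝ, 1 < σ → Summable fun x : PL S × ℕ =>
    ‖t x.1 (x.2 + 1)‖ ^ 2 / ((x.2 : ℝ) + 1) * (((Nm x.1.1 : ℕ) : ℝ) ^ (-σ)) ^ (x.2 + 1)
  /-- `(s - 1)^m L^S(s, Π × Π~)` is analytic at `s = 1` -/
  pole : ∃ A : ℂ → ℂ, AnalyticAt ℂ A 1 ∧
    ∀ s : ℂ, 1 < s.re → A s = (s - 1) ^ m * Complex.exp (logRS t s)

/-- Properties of the Satake parameters `α v = (α v 0, α v 1, α v 2, α v 3)`, `v ∉ S`, of a unitary cuspidal
automorphic representation `π` of `GL_4` over the number field `K`; `m` is the order of the pole at `s = 1` of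
`L(s, ∧²π × ∧²π~)`. -/
structure CuspidalGL4 {S : Finset (HeightOneSpectrum (𝓞 K))} (α : PL S → Fin 4 → ℂ) (m : ℕ) : Prop where
  /-- the Satake parameters are not zero -/
  ne_zero : ∀ v i, α v i ≠ 0
  /-- `π_v` is unitary: the parameters are permuted by `z ↦ 1 / conj z` -/
  unitary : ∀ v, ∃ τ : Equiv.Perm (Fin 4), ∀ i, α v (τ i) = ((starRingEnd ℂ) (α v i))⁻¹
  /-- `L^S(s, π × π~)` has a simple pole at `s = 1` (Jacquet-Piatetski-Shapiro-Shalika) -/
  std : RankinSelberg (fun v => tr (α v)) 1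
  /-- `L^S(s, ∧²π × ∧²π~)` has a pole of order `m` at `s = 1` (Kim: `∧²π` is automorphic) -/
  ext : RankinSelberg (fun v => ext (α v)) m

open scoped Classical in
/-- `(∑_{v ∉ S, P v} (N v)^{-x}) / (∑_{v ∉ S} (N v)^{-x})` -/
noncomputable def share {S : Finset (HeightOneSpectrum (𝓞 K))} (P : PL S → Prop) (x : ℝ) : ℝ :=
  (∑' v : PL S, if P v then ((Nm v.1 : ℕ) : ℝ) ^ (-x) else 0) / ∑' v : PL S, ((Nm v.1 : ℕ) : ℝ) ^ (-x)

/-- upper Dirichlet density of the set of places `v ∉ S` with `P v` -/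
noncomputable def upperDensity {S : Finset (HeightOneSpectrum (𝓞 K))} (P : PL S → Prop) : ℝ :=
  limsup (share P) (𝓝[>] 1)

/-- lower Dirichlet density of the set of places `v ∉ S` with `P v` -/
noncomputable def lowerDensity {S : Finset (HeightOneSpectrum (𝓞 K))} (P : PL S → Prop) : ℝ :=
  liminf (share P) (𝓝[>] 1)

end Pool.Agent.N859.G4
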