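import Pool.Agent.N859.G4.Defs

/-! The local lemmas. -/

set_option autoImplicit false

namespace Pool.Agent.N859.G4

open Finset

/-- `z ↦ 1 / conj z` -/
noncomputable def io (z : ℂ) : ℂ := ((starRingEnd ℂ) z)⁻¹

lemma norm_io (z : ℂ) : ‖io z‖ = ‖z‖⁻¹ := by
  unfold io; rw [norm_inv, RCLike.norm_conj]

lemma add_io {z : ℂ} (hz : z ≠ 0) : ‖z + io z‖ = ‖z‖ + ‖z‖⁻¹ := by
  have h0 : (starRingEnd ℂ) z ≠ 0 := by simpa using hz
  have hn : ‖z‖ ≠ 0 := norm_ne_zero_iff.2 hz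
  have h1 : z + io z = z * ((1 + (‖z‖ ^ 2)⁻¹ : ℝ) : ℂ) := by
    unfold io
    have h2 : ((‖z‖ ^ 2 : ℝ) : ℂ) = z * (starRingEnd ℂ) z := by
      rw [Complex.mul_conj, Complex.normSq_eq_norm_sq]
    rw [Complex.ofReal_add, Complex.ofReal_inv, h2, Complex.ofReal_one]
    field_simp
  rw [h1, norm_mul, Complex.norm_real, Real.norm_of_nonneg (by positivity)]
  field_simp

lemma norm_mul_io {z : ℂ} (hz : z ≠ 0) : ‖z * io z‖ = 1 := by
  rw [norm_mul, norm_io]
  exact mul_inv_cancel₀ (norm_ne_zero_iff.2 hz)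

lemma two_le_add_inv {r : ℝ} (hr : 0 < r) : 2 ≤ r + r⁻¹ := by
  have h : r * r⁻¹ = 1 := mul_inv_cancel₀ hr.ne'
  nlinarith [sq_nonneg (r - 1), sq_nonneg (r⁻¹ - 1), inv_pos.2 hr, sq_nonneg (r - r⁻¹)]

lemma two_lt_add_inv {r : ℝ} (hr : 0 < r) (h1 : r ≠ 1) : 2 < r + r⁻¹ := by
  have h2 : r + r⁻¹ - 2 = (r - 1) ^ 2 / r := by field_simp; ring
  have h3 : 0 < (r - 1) ^ 2 / r := div_pos (by have := sub_ne_zero.2 h1; positivity) hr
  linarith

variable {a : Fin 4 → ℂ}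

lemma ext_one (a : Fin 4 → ℂ) : ext a 1 = ((∑ i, a i) ^ 2 - ∑ i, a i ^ 2) / 2 := by
  unfold ext
  have h0 : (Finset.Ioi (0 : Fin 4)) = {1, 2, 3} := by decide
  have h1 : (Finset.Ioi (1 : Fin 4)) = {2, 3} := by decide
  have h2 : (Finset.Ioi (2 : Fin 4)) = {3} := by decide
  have h3 : (Finset.Ioi (3 : Fin 4)) = ∅ := by decide
  rw [Fin.sum_univ_four, Fin.sum_univ_four, Fin.sum_univ_four, h0, h1, h2, h3]
  rw [Finset.sum_insert (by decide), Finset.sum_insert (by decide), Finset.sum_singleton,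
    Finset.sum_insert (by decide), Finset.sum_singleton, Finset.sum_singleton, Finset.sum_empty]
  ring

lemma tr_one (a : Fin 4 → ℂ) : tr a 1 = ∑ i, a i := by
  unfold tr; simp

/-- indices of the parameters outside the unit circle -/
noncomputable def out (a : Fin 4 → ℂ) : Finset (Fin 4) := univ.filter fun i => 1 < ‖a i‖

/-- indices of the parameters on the unit circle -/
noncomputable def uni (a : Fin 4 → ℂ) : Finset (Fin 4) := univ.filter fun i => ‖a i‖ = 1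

section
variable (h0 : ∀ i, a i ≠ 0) {τ : Equiv.Perm (Fin 4)} (hτ : ∀ i, a (τ i) = io (a i))
include h0 hτ

omit h0 in
lemma norm_tau (i : Fin 4) : ‖a (τ i)‖ = ‖a i‖⁻¹ := by rw [hτ, norm_io]

lemma sum_split (f : ℂ → ℂ) :
    ∑ i, f (a i) = ∑ i ∈ out a, (f (a i) + f (io (a i))) + ∑ i ∈ uni a, f (a i) := by
  classical
  have e1 : ∑ i, f (a i) = ∑ i ∈ univ.filter (fun i => 1 < ‖a i‖), f (a i) +
      ∑ i ∈ univ.filter (fun i => ¬ 1 < ‖a i‖), f (a i) :=
    (Finset.sum_filter_add_sum_filter_not univ (fun i => 1 < ‖a i‖) (fun i => f (a i))).symm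
  have e2 : ∑ i ∈ univ.filter (fun i => ¬ 1 < ‖a i‖), f (a i) =
      ∑ i ∈ univ.filter (fun i => ‖a i‖ < 1), f (a i) + ∑ i ∈ uni a, f (a i) := by
    unfold uni
    rw [← Finset.sum_union]
    · refine Finset.sum_congr ?_ fun _ _ => rfl
      ext i
      simp only [mem_filter, mem_univ, true_and, mem_union, not_lt]
      exact le_iff_lt_or_eq
    · rw [Finset.disjoint_filter]
      intro i _ h1 h2
      exact h1.ne h2
  have e3 : ∑ i ∈ univ.filter (fun i => ‖a i‖ < 1), f (a i) = ∑ i ∈ out a, f (io (a i)) := by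
    unfold out
    symm
    refine Finset.sum_bij (fun i _ => τ i) ?_ ?_ ?_ ?_
    · intro i hi
      simp only [mem_filter, mem_univ, true_and] at hi ⊢
      rw [norm_tau hτ]
      exact inv_lt_one_of_one_lt₀ hi
    · intro i _ j _ h
      exact τ.injective h
    · intro j hj
      simp only [mem_filter, mem_univ, true_and] at hj
      refine ⟨τ.symm j, ?_, by simp⟩
      simp only [mem_filter, mem_univ, true_and]
      have h1 := norm_tau hτ (τ.symm j)
      rw [Equiv.apply_symm_apply] at h1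
      have h2 : ‖a (τ.symm j)‖ = ‖a j‖⁻¹ := by rw [h1, inv_inv]
      rw [h2]
      exact (one_lt_inv₀ (norm_pos_iff.2 (h0 j))).2 hj
    · intro i _
      rw [hτ]
  rw [e1, e2, e3, Finset.sum_add_distrib]
  unfold out
  ring

lemma card_split : 2 * (out a).card + (uni a).card = 4 := by
  have h := sum_split h0 hτ (fun _ => (1 : ℂ))
  simp only [Finset.sum_const, Finset.card_univ, Fintype.card_fin, nsmul_eq_mul, mul_one] at h
  have h2 : ((2 * (out a).card + (uni a).card : ℕ) : ℂ) = ((4 : ℕ) : ℂ) := by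
    push_cast at h ⊢
    linear_combination -h
  exact_mod_cast h2

/-- no unitary parameter: the exterior square is large -/
lemma ext_ge (hU : ∀ i, ‖a i‖ ≠ 1) (i : Fin 4) :
    2 * (‖a i‖ + ‖a i‖⁻¹) - 2 ≤ ‖ext a 1‖ ∧ 2 < ‖ext a 1‖ := by
  classical
  have hu : uni a = ∅ := by
    unfold uni
    rw [Finset.filter_eq_empty_iff]
    intro i _
    exact hU i
  have hc := card_split h0 hτ
  rw [hu, Finset.card_empty] at hc
  have hc2 : (out a).card = 2 := by omega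
  obtain ⟨p, q, hpq, ho⟩ := Finset.card_eq_two.1 hc2
  have s1 := sum_split h0 hτ (fun z => z)
  have s2 := sum_split h0 hτ (fun z => z ^ 2)
  rw [hu, ho, Finset.sum_empty, Finset.sum_pair hpq] at s1 s2
  have he : ext a 1 = (a p + io (a p)) * (a q + io (a q)) + a p * io (a p) + a q * io (a q) := by
    rw [ext_one, s1, s2]
    ring
  have hX := add_io (h0 p)
  have hY := add_io (h0 q)
  have hP0 := norm_pos_iff.2 (h0 p)
  have hQ0 := norm_pos_iff.2 (h0 q)
  have hX2 := two_lt_add_inv hP0 (hU p)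
  have hY2 := two_lt_add_inv hQ0 (hU q)
  have hge : (‖a p‖ + ‖a p‖⁻¹) * (‖a q‖ + ‖a q‖⁻¹) - 2 ≤ ‖ext a 1‖ := by
    have t1 : ‖(a p + io (a p)) * (a q + io (a q))‖ ≤
        ‖ext a 1‖ + ‖a p * io (a p)‖ + ‖a q * io (a q)‖ := by
      have : (a p + io (a p)) * (a q + io (a q)) =
          ext a 1 - a p * io (a p) - a q * io (a q) := by rw [he]; ring
      rw [this]
      exact (norm_sub_le _ _).trans (add_le_add_left (norm_sub_le _ _) _)
    rw [norm_mul, hX, hY, norm_mul_io (h0 p), norm_mul_io (h0 q)] at t1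
    linarith
  have hi : ‖a i‖ + ‖a i‖⁻¹ = ‖a p‖ + ‖a p‖⁻¹ ∨ ‖a i‖ + ‖a i‖⁻¹ = ‖a q‖ + ‖a q‖⁻¹ := by
    have key : ∀ j, 1 < ‖a j‖ → j = p ∨ j = q := by
      intro j hj
      have : j ∈ out a := by unfold out; simp [hj]
      rw [ho] at this
      simpa using this
    rcases lt_or_gt_of_ne (hU i) with h | h
    · have h1 : 1 < ‖a (τ i)‖ := by
        rw [norm_tau hτ]
        exact (one_lt_inv₀ (norm_pos_iff.2 (h0 i))).2 h
      have h2 : ‖a i‖ + ‖a i‖⁻¹ = ‖a (τ i)‖ + ‖a (τ i)‖⁻¹ := by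
        rw [norm_tau hτ, inv_inv, add_comm]
      rw [h2]
      rcases key _ h1 with h3 | h3
      · left; rw [h3]
      · right; rw [h3]
    · rcases key _ h with h3 | h3
      · left; rw [h3]
      · right; rw [h3]
  constructor
  · rcases hi with hi | hi
    · rw [hi]; nlinarith
    · rw [hi]; nlinarith
  · nlinarith

/-- if the exterior square is small, at least two parameters are unitary -/
lemma two_unitary (he : ‖ext a 1‖ ≤ 2) : 2 ≤ (uni a).card := by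
  have hc := card_split h0 hτ
  by_contra hcon
  have h1 : (uni a).card = 0 := by omega
  have h2 : ∀ i, ‖a i‖ ≠ 1 := by
    intro i hi
    rw [Finset.card_eq_zero] at h1
    have : i ∈ uni a := by unfold uni; simp [hi]
    rw [h1] at this
    simp at this
  have := (ext_ge h0 hτ h2 0).2
  linarith

/-- a large parameter makes the trace or the exterior square large -/
lemma large {T : ℝ} (hT : 2 < T) {i : Fin 4} (hi : T ≤ ‖a i‖ + ‖a i‖⁻¹) :
    T ^ 2 - 2 ≤ T * ‖tr a 1‖ + ‖ext a 1‖ := by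
  classical
  have hi1 : ‖a i‖ ≠ 1 := by
    intro h; rw [h] at hi; norm_num at hi; linarith
  have hij : i ≠ τ i := by
    intro h
    have h1 := norm_tau hτ i
    rw [← h] at h1
    have h2 := norm_pos_iff.2 (h0 i)
    have h3 : ‖a i‖ * ‖a i‖ = 1 := by
      nth_rw 2 [h1]
      exact mul_inv_cancel₀ h2.ne'
    exact hi1 (by nlinarith)
  obtain ⟨k, l, huniv, hik, hil, hjk, hjl, hkl⟩ : ∃ k l, (∀ x, x = i ∨ x = τ i ∨ x = k ∨ x = l) ∧
      i ≠ k ∧ i ≠ l ∧ τ i ≠ k ∧ τ i ≠ l ∧ k ≠ l := by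
    have : ∀ i j : Fin 4, i ≠ j → ∃ k l, (∀ x, x = i ∨ x = j ∨ x = k ∨ x = l) ∧
      i ≠ k ∧ i ≠ l ∧ j ≠ k ∧ j ≠ l ∧ k ≠ l := by decide
    exact this i (τ i) hij
  have hu : (univ : Finset (Fin 4)) = {i, τ i, k, l} := by
    symm
    rw [Finset.eq_univ_iff_forall]
    intro x
    simpa using huniv x
  have hsum : ∀ f : Fin 4 → ℂ, ∑ x, f x = f i + (f (τ i) + (f k + f l)) := by
    intro f
    rw [hu, Finset.sum_insert (by simp [hij, hik, hil]), Finset.sum_insert (by simp [hjk, hjl]),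
      Finset.sum_insert (by simp [hkl]), Finset.sum_singleton]
  have hprod : ‖a i‖ * (‖a (τ i)‖ * (‖a k‖ * ‖a l‖)) = 1 := by
    have h1 : ∏ x, ‖a x‖ = ‖a i‖ * (‖a (τ i)‖ * (‖a k‖ * ‖a l‖)) := by
      rw [hu, Finset.prod_insert (by simp [hij, hik, hil]), Finset.prod_insert (by simp [hjk, hjl]),
        Finset.prod_insert (by simp [hkl]), Finset.prod_singleton]
    rw [← h1]
    have h2 : ∏ x, ‖a x‖ = (∏ x, ‖a x‖)⁻¹ := by
      calc ∏ x, ‖a x‖ = ∏ x, ‖a (τ x)‖ := (Equiv.prod_comp τ _).symm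
        _ = ∏ x, ‖a x‖⁻¹ := Finset.prod_congr rfl fun x _ => norm_tau hτ x
        _ = _ := Finset.prod_inv_distrib _
    have h3 : 0 < ∏ x, ‖a x‖ := Finset.prod_pos fun x _ => norm_pos_iff.2 (h0 x)
    have h4 : (∏ x, ‖a x‖) * (∏ x, ‖a x‖) = 1 := by
      nth_rw 2 [h2]
      exact mul_inv_cancel₀ h3.ne'
    nlinarith
  have hkl1 : ‖a k * a l‖ = 1 := by
    rw [norm_mul]
    have h1 : ‖a i‖ * ‖a (τ i)‖ = 1 := by
      rw [norm_tau hτ]
      exact mul_inv_cancel₀ (norm_ne_zero_iff.2 (h0 i))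
    calc ‖a k‖ * ‖a l‖ = (‖a i‖ * ‖a (τ i)‖) * (‖a k‖ * ‖a l‖) := by rw [h1, one_mul]
      _ = 1 := by rw [← hprod]; ring
  have hij1 : ‖a i * a (τ i)‖ = 1 := by
    rw [norm_mul, norm_tau hτ]
    exact mul_inv_cancel₀ (norm_ne_zero_iff.2 (h0 i))
  have hX := add_io (h0 i)
  rw [← hτ i] at hX
  set X := ‖a i‖ + ‖a i‖⁻¹ with hXdef
  have key : (a i + a (τ i)) ^ 2 = (a i + a (τ i)) * tr a 1 - ext a 1 + a i * a (τ i) + a k * a l := by
    rw [tr_one, ext_one, hsum, hsum]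
    ring
  have h5 : X ^ 2 ≤ X * ‖tr a 1‖ + ‖ext a 1‖ + 1 + 1 := by
    calc X ^ 2 = ‖(a i + a (τ i)) ^ 2‖ := by rw [norm_pow, hX]
      _ = ‖(a i + a (τ i)) * tr a 1 - ext a 1 + a i * a (τ i) + a k * a l‖ := by rw [key]
      _ ≤ ‖(a i + a (τ i)) * tr a 1‖ + ‖ext a 1‖ + ‖a i * a (τ i)‖ + ‖a k * a l‖ := by
        refine (norm_add_le _ _).trans (add_le_add_left ((norm_add_le _ _).trans
          (add_le_add_left (norm_sub_le _ _) _)) _)
      _ = _ := by rw [norm_mul, hX, hij1, hkl1]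
  have hx0 := norm_nonneg (tr a 1)
  have hy0 := norm_nonneg (ext a 1)
  rcases le_total ‖tr a 1‖ (X + T) with h6 | h6
  · nlinarith [mul_nonneg (sub_nonneg.2 hi) (sub_nonneg.2 h6)]
  · nlinarith [mul_le_mul_of_nonneg_left h6 (by linarith : (0 : ℝ) ≤ T)]

end

/-- the symplectic case -/
lemma symplectic {b c : ℂ} (hb : b ≠ 0) (hc : c ≠ 0) {τ : Equiv.Perm (Fin 4)}
    (hτ : ∀ i, (![b, c, c⁻¹, b⁻¹] : Fin 4 → ℂ) (τ i) = io ((![b, c, c⁻¹, b⁻¹] : Fin 4 → ℂ) i))
    (he : ‖ext ![b, c, c⁻¹, b⁻¹] 1‖ < 2) :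
    ∃ x y : ℝ, b + b⁻¹ = x ∧ c + c⁻¹ = y ∧ -4 < x * y ∧ x * y < 0 := by
  have e1 : ext ![b, c, c⁻¹, b⁻¹] 1 = 2 + (b + b⁻¹) * (c + c⁻¹) := by
    rw [ext_one, Fin.sum_univ_four, Fin.sum_univ_four]
    simp only [Matrix.cons_val_zero, Matrix.cons_val_one, Matrix.cons_val]
    field_simp
    ring
  -- a sum `z + 1/z` whose conjugate is the other one
  have key : ∀ z ∈ ({b, c, c⁻¹, b⁻¹} : Set ℂ), ∀ w, w = io z →
      w ∈ ({b, c, c⁻¹, b⁻¹} : Set ℂ) →
      (starRingEnd ℂ) (z + z⁻¹) = b + b⁻¹ ∨ (starRingEnd ℂ) (z + z⁻¹) = c + c⁻¹ := by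
    intro z _ w hw hwm
    have h1 : (starRingEnd ℂ) (z + z⁻¹) = w + w⁻¹ := by
      rw [hw]; unfold io
      rw [map_add, map_inv₀, inv_inv, add_comm]
    rw [h1]
    simp only [Set.mem_insert_iff, Set.mem_singleton_iff] at hwm
    rcases hwm with h | h | h | h
    · left; rw [h]
    · right; rw [h]
    · right; rw [h, inv_inv, add_comm]
    · left; rw [h, inv_inv, add_comm]
  have mem : ∀ i : Fin 4, (![b, c, c⁻¹, b⁻¹] : Fin 4 → ℂ) i ∈ ({b, c, c⁻¹, b⁻¹} : Set ℂ) := by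
    intro i
    fin_cases i <;> simp
  have kb := key b (by simp) _ rfl (by
    have h := hτ 0
    have h2 := mem (τ 0)
    rw [h] at h2
    simpa using h2)
  have kc := key c (by simp) _ rfl (by
    have h := hτ 1
    have h2 := mem (τ 1)
    rw [h] at h2
    simpa using h2)
  have no : ∀ z w : ℂ, (starRingEnd ℂ) z = w → ¬ ‖2 + z * w‖ < 2 := by
    intro z w h hlt
    rw [← h, Complex.mul_conj] at hlt
    have h3 : (2 : ℂ) + (Complex.normSq z : ℂ) = ((2 + Complex.normSq z : ℝ) : ℂ) := by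
      push_cast; rfl
    rw [h3, Complex.norm_real, Real.norm_of_nonneg (by have := Complex.normSq_nonneg z; linarith)] at hlt
    have := Complex.normSq_nonneg z
    linarith
  have rb : (starRingEnd ℂ) (b + b⁻¹) = b + b⁻¹ := by
    rcases kb with h | h
    · exact h
    · exact absurd (e1 ▸ he) (no _ _ h)
  have rc : (starRingEnd ℂ) (c + c⁻¹) = c + c⁻¹ := by
    rcases kc with h | h
    · refine absurd (e1 ▸ he) ?_
      rw [mul_comm]
      exact no _ _ h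
    · exact h
  obtain ⟨x, hx⟩ := Complex.conj_eq_iff_real.1 rb
  obtain ⟨y, hy⟩ := Complex.conj_eq_iff_real.1 rc
  refine ⟨x, y, hx, hy, ?_⟩
  rw [e1, hx, hy] at he
  have h4 : (2 : ℂ) + (x : ℂ) * (y : ℂ) = ((2 + x * y : ℝ) : ℂ) := by push_cast; rfl
  rw [h4, Complex.norm_real, Real.norm_eq_abs, abs_lt] at he
  constructor <;> linarith [he.1, he.2]

end Pool.Agent.N859.G4
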