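import Pool.Agent.N859.G4.Local
import Pool.Agent.H921R2.TatePole.Dedekind

/-! Densities from second moments. -/

set_option autoImplicit false

namespace Pool.Agent.N859.G4

open NumberField IsDedekindDomain Filter Topology
open Pool.Agent.H921R2.TatePole (nm Lam prime_sum_bdd nm_summable Lam_tendsto Bdd)

variable {K : Type*} [Field K] [NumberField K] {S : Finset (HeightOneSpectrum (𝓞 K))}

/-- the weight of a place -/
noncomputable def wt (v : PL S) (x : ℝ) : ℝ := ((Nm v.1 : ℕ) : ℝ) ^ (-x)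

lemma wt_nonneg (v : PL S) (x : ℝ) : 0 ≤ wt v x := by unfold wt; positivity

variable (S) in
/-- the sum of the weights -/
noncomputable def Z (x : ℝ) : ℝ := ∑' v : PL S, wt v x

lemma summable_wt {x : ℝ} (hx : 1 < x) : Summable fun v : PL S => wt v x :=
  (nm_summable (K := K) hx).comp_injective (i := fun v : PL S => v.1) Subtype.val_injective

lemma Z_lower : ∃ C : ℝ, ∀ᶠ x : ℝ in 𝓝[>] 1, Lam x - C ≤ Z S x := by
  obtain ⟨C, hC⟩ := prime_sum_bdd (K := K)
  refine ⟨C + S.card, ?_⟩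
  filter_upwards [hC, self_mem_nhdsWithin] with x hx hx1
  have hx1 : (1 : ℝ) < x := hx1
  have h1 := (nm_summable (K := K) hx1).sum_add_tsum_subtype_compl S
  have h2 : ∑ v ∈ S, ((nm v : ℕ) : ℝ) ^ (-x) ≤ S.card := by
    calc ∑ v ∈ S, ((nm v : ℕ) : ℝ) ^ (-x) ≤ ∑ v ∈ S, (1 : ℝ) := by
          refine Finset.sum_le_sum fun v _ => ?_
          refine Real.rpow_le_one_of_one_le_of_nonpos ?_ (by linarith)
          have := Pool.Agent.H921R2.TatePole.two_le_nm v
          exact_mod_cast (by omega : 1 ≤ nm v)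
      _ = S.card := by simp
  have h3 := (abs_le.1 hx).1
  have h4 : Z S x = ∑' v : PL S, ((nm v.1 : ℕ) : ℝ) ^ (-x) := rfl
  rw [h4]
  linarith

lemma Z_tendsto : Tendsto (Z S) (𝓝[>] 1) atTop := by
  obtain ⟨C, hC⟩ := Z_lower (S := S)
  exact tendsto_atTop_mono' _ hC (tendsto_atTop_add_const_right _ _ Lam_tendsto)

lemma Z_nonneg (x : ℝ) : 0 ≤ Z S x := tsum_nonneg fun v => wt_nonneg v x

variable {t : PL S → ℕ → ℂ} {m : ℕ}

/-- the terms of the Rankin-Selberg series -/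
noncomputable def G (t : PL S → ℕ → ℂ) (x : ℝ) (y : PL S × ℕ) : ℝ :=
  ‖t y.1 (y.2 + 1)‖ ^ 2 / ((y.2 : ℝ) + 1) * (((Nm y.1.1 : ℕ) : ℝ) ^ (-x)) ^ (y.2 + 1)

lemma G_nonneg (x : ℝ) (y : PL S × ℕ) : 0 ≤ G t x y := by unfold G; positivity

lemma G_zero (x : ℝ) (v : PL S) : G t x (v, 0) = ‖t v 1‖ ^ 2 * wt v x := by
  unfold G wt
  norm_num

omit [NumberField K] in
lemma inj_zero : Function.Injective fun v : PL S => ((v, 0) : PL S × ℕ) := fun _ _ h =>
  (Prod.ext_iff.1 h).1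

lemma summable_one (h : RankinSelberg t m) {x : ℝ} (hx : 1 < x) :
    Summable fun v : PL S => ‖t v 1‖ ^ 2 * wt v x := by
  have h1 := (h.summable x hx).comp_injective (inj_zero (S := S))
  refine h1.congr fun v => ?_
  exact (G_zero (t := t) x v)

lemma logRS_real (x : ℝ) : logRS t (x : ℂ) = ((∑' y, G t x y : ℝ) : ℂ) := by
  unfold logRS
  rw [Complex.ofReal_tsum]
  refine tsum_congr fun y => ?_
  unfold G
  rw [Complex.ofReal_mul, Complex.ofReal_pow, Complex.ofReal_cpow (by positivity)]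
  push_cast
  rfl

lemma moment_le (h : RankinSelberg t m) : ∃ C : ℝ, ∀ᶠ x : ℝ in 𝓝[>] 1,
    ∑' v : PL S, ‖t v 1‖ ^ 2 * wt v x ≤ m * Lam x + C := by
  obtain ⟨A, hA, hAs⟩ := h.pole
  have hc : ContinuousAt (fun x : ℝ => ‖A (x : ℂ)‖) 1 := by
    refine ContinuousAt.norm ?_
    exact ContinuousAt.comp (f := fun x : ℝ => (x : ℂ)) (x := 1)
      (by simpa using hA.continuousAt) Complex.continuous_ofReal.continuousAt
  have hb : ∀ᶠ x : ℝ in 𝓝[>] 1, ‖A (x : ℂ)‖ < ‖A ((1 : ℝ) : ℂ)‖ + 1 :=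
    (hc.eventually (gt_mem_nhds (lt_add_one _))).filter_mono nhdsWithin_le_nhds
  refine ⟨Real.log (‖A ((1 : ℝ) : ℂ)‖ + 1), ?_⟩
  filter_upwards [hb, self_mem_nhdsWithin] with x hx hx1
  have hx1 : (1 : ℝ) < x := hx1
  have hx0 : 0 < x - 1 := by linarith
  have e1 := hAs (x : ℂ) (by simpa using hx1)
  rw [logRS_real, ← Complex.ofReal_exp] at e1
  have e2 : A (x : ℂ) = (((x - 1) ^ m * Real.exp (∑' y, G t x y) : ℝ) : ℂ) := by
    rw [e1]; push_cast; rfl
  rw [e2, Complex.norm_real, Real.norm_of_nonneg (by positivity)] at hx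
  have e3 := Real.log_lt_log (by positivity) hx
  rw [Real.log_mul (by positivity) (Real.exp_pos _).ne', Real.log_exp, Real.log_pow] at e3
  have e4 : Lam x = -Real.log (x - 1) := by
    unfold Lam; rw [one_div, Real.log_inv]
  have hs : Summable (G t x) := h.summable x hx1
  have e5 : ∑' v : PL S, ‖t v 1‖ ^ 2 * wt v x ≤ ∑' y, G t x y := by
    have := tsum_comp_le_tsum_of_inj hs (fun y => G_nonneg x y) (inj_zero (S := S))
    refine le_trans (le_of_eq ?_) this
    exact tsum_congr fun v => (G_zero (t := t) x v).symm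
  rw [e4]
  linarith

lemma second_moment (h : RankinSelberg t m) {ε : ℝ} (hε : 0 < ε) : ∀ᶠ x : ℝ in 𝓝[>] 1,
    ∑' v : PL S, ‖t v 1‖ ^ 2 * wt v x ≤ (m + ε) * Z S x := by
  obtain ⟨C, hC⟩ := moment_le h
  obtain ⟨D, hD⟩ := Z_lower (S := S)
  filter_upwards [hC, hD, (Z_tendsto (S := S)).eventually_ge_atTop ((m * D + C) / ε)] with x h1 h2 h3
  have h4 : m * D + C ≤ ε * Z S x := by
    rw [div_le_iff₀ hε] at h3
    linarith
  have h5 : (m : ℝ) * Lam x ≤ m * (Z S x + D) :=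
    mul_le_mul_of_nonneg_left (by linarith) (Nat.cast_nonneg m)
  calc _ ≤ _ := h1
    _ ≤ m * (Z S x + D) + C := by linarith
    _ ≤ _ := by linarith

section
variable {P : PL S → Prop}

open scoped Classical in
lemma share_eq (x : ℝ) : share P x = (∑' v : PL S, if P v then wt v x else 0) / Z S x := rfl

open scoped Classical in
lemma summable_if {x : ℝ} (hx : 1 < x) : Summable fun v : PL S => if P v then wt v x else 0 :=
  Summable.of_nonneg_of_le (fun v => by split_ifs; exacts [wt_nonneg v x, le_rfl])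
    (fun v => by split_ifs; exacts [le_rfl, wt_nonneg v x]) (summable_wt hx)

lemma share_nonneg (x : ℝ) : 0 ≤ share P x := by
  classical
  rw [share_eq]
  refine div_nonneg (tsum_nonneg fun v => ?_) (Z_nonneg x)
  split_ifs
  exacts [wt_nonneg v x, le_rfl]

lemma share_add {x : ℝ} (hx : 1 < x) (hZ : 0 < Z S x) : share P x + share (fun v => ¬ P v) x = 1 := by
  classical
  rw [share_eq, share_eq, ← add_div, ← (summable_if hx).tsum_add (summable_if hx)]
  refine (congrArg (· / Z S x) ?_).trans (div_self hZ.ne')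
  refine tsum_congr fun v => ?_
  by_cases h : P v <;> simp [h]

lemma Z_pos : ∀ᶠ x : ℝ in 𝓝[>] 1, 0 < Z S x := (Z_tendsto (S := S)).eventually_gt_atTop 0

lemma share_le_one : ∀ᶠ x : ℝ in 𝓝[>] 1, share P x ≤ 1 := by
  filter_upwards [Z_pos (S := S), self_mem_nhdsWithin] with x hx hx1
  have := share_add (P := P) hx1 hx
  have := share_nonneg (P := fun v => ¬ P v) x
  linarith

lemma upper_le {c : ℝ} (h : ∀ ε > 0, ∀ᶠ x : ℝ in 𝓝[>] 1, share P x ≤ c + ε) :
    upperDensity P ≤ c := by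
  refine le_of_forall_pos_le_add fun ε hε => ?_
  unfold upperDensity
  refine limsup_le_of_le ?_ (h ε hε)
  refine IsBoundedUnder.isCoboundedUnder_le ?_
  exact isBoundedUnder_of ⟨0, fun x => share_nonneg (P := P) x⟩

lemma lower_ge {c : ℝ} (h : ∀ ε > 0, ∀ᶠ x : ℝ in 𝓝[>] 1, share (fun v => ¬ P v) x ≤ c + ε) :
    1 - c ≤ lowerDensity P := by
  rw [sub_le_iff_le_add]
  refine le_of_forall_pos_le_add fun ε hε => ?_
  have h1 : 1 - (c + ε) ≤ lowerDensity P := by
    unfold lowerDensity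
    refine le_liminf_of_le ?_ ?_
    · refine IsBoundedUnder.isCoboundedUnder_ge ?_
      exact ⟨1, share_le_one⟩
    · filter_upwards [h ε hε, Z_pos (S := S), self_mem_nhdsWithin] with x hx hZ hx1
      have := share_add (P := P) hx1 hZ
      linarith
  linarith

end

variable {α : PL S → Fin 4 → ℂ}

/-- Markov's inequality -/
lemma share_le (h : CuspidalGL4 α m) {P : PL S → Prop} {c d : ℝ} (hc : 0 ≤ c) (hd : 0 ≤ d)
    (hP : ∀ v, P v → 1 ≤ c * ‖tr (α v) 1‖ ^ 2 + d * ‖ext (α v) 1‖ ^ 2) {ε : ℝ} (hε : 0 < ε) :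
    ∀ᶠ x : ℝ in 𝓝[>] 1, share P x ≤ (c + d * m) + ε := by
  classical
  have hδ : 0 < ε / (c + d + 1) := by positivity
  filter_upwards [second_moment h.std hδ, second_moment h.ext hδ, Z_pos (S := S),
    self_mem_nhdsWithin] with x h1 h2 hZ hx1
  have hx1 : (1 : ℝ) < x := hx1
  rw [share_eq, div_le_iff₀ hZ]
  have s1 := summable_one h.std hx1
  have s2 := summable_one h.ext hx1
  calc ∑' v : PL S, (if P v then wt v x else 0)
      ≤ ∑' v : PL S, (c * (‖tr (α v) 1‖ ^ 2 * wt v x) + d * (‖ext (α v) 1‖ ^ 2 * wt v x)) := by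
        refine (summable_if hx1).tsum_le_tsum (fun v => ?_) ((s1.mul_left c).add (s2.mul_left d))
        have hw := wt_nonneg v x
        split_ifs with hv
        · have := mul_le_mul_of_nonneg_right (hP v hv) hw
          linarith
        · positivity
    _ = c * ∑' v : PL S, ‖tr (α v) 1‖ ^ 2 * wt v x + d * ∑' v : PL S, ‖ext (α v) 1‖ ^ 2 * wt v x := by
        rw [(s1.mul_left c).tsum_add (s2.mul_left d), tsum_mul_left, tsum_mul_left]
    _ ≤ c * (((1 : ℕ) + ε / (c + d + 1)) * Z S x) + d * ((m + ε / (c + d + 1)) * Z S x) := by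
        gcongr
    _ = (c + d * m) * Z S x + (c + d) / (c + d + 1) * ε * Z S x := by
        field_simp
        push_cast
        ring
    _ ≤ (c + d * m) * Z S x + 1 * ε * Z S x := by
        have : (c + d) / (c + d + 1) ≤ 1 := by
          rw [div_le_one (by positivity)]; linarith
        gcongr
    _ = _ := by ring

theorem main_half (h : CuspidalGL4 α m) :
    1 - (m : ℝ) / 4 ≤ lowerDensity (fun v => ‖ext (α v) 1‖ < 2 ∧
      2 ≤ (Finset.univ.filter fun i => ‖α v i‖ = 1).card) ∧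
    ∀ T : ℝ, 2 ≤ T → upperDensity (fun v => (∀ i, ‖α v i‖ ≠ 1) ∧ ∃ i, T ≤ ‖α v i‖ + ‖α v i‖⁻¹) ≤
      m / (4 * (T - 1) ^ 2) := by
  refine ⟨?_, ?_⟩
  · refine lower_ge fun ε hε => ?_
    have := share_le h (P := fun v => ¬ (‖ext (α v) 1‖ < 2 ∧
      2 ≤ (Finset.univ.filter fun i => ‖α v i‖ = 1).card)) (c := 0) (d := 1 / 4) le_rfl (by norm_num)
      (fun v hv => by
        obtain ⟨τ, hτ⟩ := h.unitary v
        have h2 : 2 ≤ ‖ext (α v) 1‖ := by
          by_contra hcon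
          rw [not_le] at hcon
          exact hv ⟨hcon, two_unitary (h.ne_zero v) hτ hcon.le⟩
        nlinarith) hε
    filter_upwards [this] with x hx
    linarith
  · intro T hT
    have hT1 : 0 < T - 1 := by linarith
    refine upper_le fun ε hε => ?_
    have := share_le h (P := fun v => (∀ i, ‖α v i‖ ≠ 1) ∧ ∃ i, T ≤ ‖α v i‖ + ‖α v i‖⁻¹) (c := 0)
      (d := 1 / (4 * (T - 1) ^ 2)) le_rfl (by positivity)
      (fun v hv => by
        obtain ⟨hv1, i, hi⟩ := hv
        obtain ⟨τ, hτ⟩ := h.unitary v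
        have h1 := (ext_ge (h.ne_zero v) hτ hv1 i).1
        have h2 : 2 * (T - 1) ≤ ‖ext (α v) 1‖ := by linarith
        have h3 := pow_le_pow_left₀ (by linarith) h2 2
        rw [one_div, inv_mul_eq_div, zero_mul, zero_add, one_le_div (by positivity)]
        linarith) hε
    filter_upwards [this] with x hx
    refine hx.trans (le_of_eq ?_)
    rw [one_div, inv_mul_eq_div, zero_add]

theorem main_tail (h : CuspidalGL4 α m) (hm : 1 ≤ m) {T : ℝ} (hT : 2 < T) :
    upperDensity (fun v => ∃ i, T ≤ ‖α v i‖ + ‖α v i‖⁻¹) ≤ ((T + √m) / (T ^ 2 - 2)) ^ 2 ∧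
    1 - ((T + √m) / (T ^ 2 - 2)) ^ 2 ≤ lowerDensity (fun v => ∀ i, ‖α v i‖ + ‖α v i‖⁻¹ < T) := by
  have hD : 0 < T ^ 2 - 2 := by nlinarith
  have hm0 : (0 : ℝ) < m := by exact_mod_cast hm
  have hq : 0 < √(m : ℝ) := Real.sqrt_pos.2 hm0
  have hq2 : √(m : ℝ) ^ 2 = m := Real.sq_sqrt hm0.le
  set q := √(m : ℝ) with hqdef
  have key : ∀ ε > 0, ∀ᶠ x : ℝ in 𝓝[>] 1,
      share (fun v => ∃ i, T ≤ ‖α v i‖ + ‖α v i‖⁻¹) x ≤ ((T + q) / (T ^ 2 - 2)) ^ 2 + ε := by
    intro ε hε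
    have := share_le h (P := fun v => ∃ i, T ≤ ‖α v i‖ + ‖α v i‖⁻¹)
      (c := T * (T + q) / (T ^ 2 - 2) ^ 2)
      (d := (T + q) / (q * (T ^ 2 - 2) ^ 2)) (by positivity) (by positivity)
      (fun v hv => by
        obtain ⟨i, hi⟩ := hv
        obtain ⟨τ, hτ⟩ := h.unitary v
        have h1 := large (h.ne_zero v) hτ hT hi
        set x := ‖tr (α v) 1‖
        set y := ‖ext (α v) 1‖
        have h2 : T * (T + q) / (T ^ 2 - 2) ^ 2 * x ^ 2 + (T + q) / (q * (T ^ 2 - 2) ^ 2) * y ^ 2 =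
            (q * (T * x + y) ^ 2 + T * (y - q * x) ^ 2) / (q * (T ^ 2 - 2) ^ 2) := by
          field_simp
          ring
        rw [h2, one_le_div (by positivity)]
        have h3 : (T ^ 2 - 2) ^ 2 ≤ (T * x + y) ^ 2 := pow_le_pow_left₀ hD.le h1 2
        have h4 : 0 ≤ T * (y - q * x) ^ 2 := by positivity
        nlinarith) hε
    filter_upwards [this] with x hx
    refine hx.trans (le_of_eq ?_)
    rw [← hq2]
    field_simp
  refine ⟨upper_le key, lower_ge fun ε hε => ?_⟩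
  filter_upwards [key ε hε] with x hx
  have e : (fun v : PL S => ¬ ∀ i, ‖α v i‖ + ‖α v i‖⁻¹ < T) =
      fun v => ∃ i, T ≤ ‖α v i‖ + ‖α v i‖⁻¹ := by
    funext v
    simp only [not_forall, not_lt]
  rw [e]
  exact hx

end Pool.Agent.N859.G4
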